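import Pool.Agent.Helper20.Griff.Goals
import Pool.Agent.Helper94.Griff.Vol

/-!
Packet G-A3: the functional `volCoeff` on polynomials in the coordinates of the two blocks.
-/

open MvPolynomial Pool.Agent.Helper94.Griff Pool.Agent.Helper20.Griff

namespace Pool.Agent.Helper65.Griff

section Pair

variable {R : Type*} [CommRing R]

lemma pair_eq (v : Fin 15 → R) (Y : Matrix (Fin 6) (Fin 6) R) :
    ∑ i, v i * coordMat Y i = ∑ p, ∑ q, quatMat v p q * Y p q := by
  simp [coordMat, quatMat, Fin.sum_univ_succ]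
  ring

end Pair

section Lin

variable (c : Fin 15 ⊕ Fin 15 → ℂ)

/-- The linear form with coefficients `c`. -/
noncomputable def ell : MvPolynomial (Fin 15 ⊕ Fin 15) ℂ := ∑ i, C (c i) * X i

lemma pderiv_ell (j : Fin 15 ⊕ Fin 15) : pderiv j (ell c) = C (c j) := by
  unfold ell
  rw [map_sum, Finset.sum_eq_single j]
  · rw [pderiv_C_mul, pderiv_X_self, mul_one]
  · intro i _ hi
    rw [pderiv_C_mul, pderiv_X_of_ne hi, mul_zero]
  · intro h; exact absurd (Finset.mem_univ j) h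

lemma pderiv_pow (j : Fin 15 ⊕ Fin 15) (a : ℂ) (k : ℕ) :
    pderiv j (C a * ell c ^ (k + 1)) = C (a * (k + 1) * c j) * ell c ^ k := by
  rw [pderiv_C_mul, Derivation.leibniz_pow, pderiv_ell]
  simp only [Nat.add_sub_cancel, smul_eq_mul, nsmul_eq_mul, map_mul, map_add, map_natCast, map_one,
    Nat.cast_add, Nat.cast_one]
  ring

lemma cubOp_pow (e : Fin 15 → Fin 15 ⊕ Fin 15) (a : ℂ) (k : ℕ) :
    cubOp (fun i g => pderiv (e i) g) (C a * ell c ^ (k + 1 + 1 + 1)) =
      C (a * ((k : ℂ) + 1 + 1 + 1) * ((k : ℂ) + 1 + 1) * ((k : ℂ) + 1) *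
        cub (fun i => c (e i))) * ell c ^ k := by
  simp only [cubOp, pderiv_pow]
  simp only [← sub_mul, ← add_mul, ← C_sub, ← C_add]
  congr 2
  push_cast
  simp only [cub]
  ring

end Lin

/-- The operator `cubOp` of partial derivatives as a linear map. -/
noncomputable def opL (e : Fin 15 → Fin 15 ⊕ Fin 15) :
    MvPolynomial (Fin 15 ⊕ Fin 15) ℂ →ₗ[ℂ] MvPolynomial (Fin 15 ⊕ Fin 15) ℂ where
  toFun := cubOp (fun i g => pderiv (e i) g)
  map_add' f g := by
    simp only [cubOp, map_add]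
    ring
  map_smul' a f := by
    simp only [cubOp, Derivation.map_smul, RingHom.id_apply, smul_add, smul_sub]

lemma opL_apply (e : Fin 15 → Fin 15 ⊕ Fin 15) (f : MvPolynomial (Fin 15 ⊕ Fin 15) ℂ) :
    opL e f = cubOp (fun i g => pderiv (e i) g) f := rfl

/-- The right side as a linear map. -/
noncomputable def rhsL : MvPolynomial (Fin 15 ⊕ Fin 15) ℂ →ₗ[ℂ] ℂ where
  toFun f := constantCoeff
      (cubOp (fun i g => pderiv (Sum.inl i) g) (cubOp (fun i g => pderiv (Sum.inl i) g)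
        (cubOp (fun i g => pderiv (Sum.inr i) g) (cubOp (fun i g => pderiv (Sum.inr i) g) f))))
  map_add' f g := by
    simp only [← opL_apply, map_add]
  map_smul' a f := by
    simp only [← opL_apply, map_smul, RingHom.id_apply, constantCoeff_smul]

lemma rhsL_apply (f : MvPolynomial (Fin 15 ⊕ Fin 15) ℂ) : rhsL f = constantCoeff
      (cubOp (fun i g => pderiv (Sum.inl i) g) (cubOp (fun i g => pderiv (Sum.inl i) g)
        (cubOp (fun i g => pderiv (Sum.inr i) g) (cubOp (fun i g => pderiv (Sum.inr i) g) f)))) :=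
  rfl

lemma rhsL_pow (c : Fin 15 ⊕ Fin 15 → ℂ) :
    rhsL (ell c ^ 12) = (Nat.factorial 12 : ℂ) *
      (cub (fun i => c (Sum.inl i)) ^ 2 * cub (fun i => c (Sum.inr i)) ^ 2) := by
  have h0 : ell c ^ 12 = C (1 : ℂ) * ell c ^ (9 + 1 + 1 + 1) := by
    rw [map_one, one_mul]
  have h9 : ell c ^ 9 = ell c ^ (6 + 1 + 1 + 1) := by norm_num
  have h6 : ell c ^ 6 = ell c ^ (3 + 1 + 1 + 1) := by norm_num
  have h3 : ell c ^ 3 = ell c ^ (0 + 1 + 1 + 1) := by norm_num
  rw [rhsL_apply, h0, cubOp_pow c Sum.inr 1 9, h9, cubOp_pow c Sum.inr _ 6, h6,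
    cubOp_pow c Sum.inl _ 3, h3, cubOp_pow c Sum.inl _ 0, pow_zero, mul_one, constantCoeff_C]
  norm_num [Nat.factorial]
  ring

/-- The matrix of the linear form. -/
noncomputable def bmat (c : Fin 15 ⊕ Fin 15 → ℂ) : Matrix (Fin 12) (Fin 12) ℂ :=
  Matrix.reindex finSumFinEquiv finSumFinEquiv
    (Matrix.fromBlocks (quatMat fun i => c (Sum.inl i)) 0 0 (quatMat fun i => c (Sum.inr i)))

lemma quatMat_C (v : Fin 15 → ℂ) (p q : Fin 6) :
    quatMat (fun i => (C (v i) : Forms (Fin 12))) p q = C (quatMat v p q) := by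
  fin_cases p <;> fin_cases q <;> simp [quatMat]

lemma aeval_ell (c : Fin 15 ⊕ Fin 15 → ℂ) :
    (aeval (Sum.elim (coordMat (blk₁ (gen (Fin 12)))) (coordMat (blk₂ (gen (Fin 12)))))
      (ell c) : Forms (Fin 12)) = lin (bmat c) := by
  unfold ell
  rw [map_sum, Fintype.sum_sum_type]
  simp only [map_mul, aeval_X, Sum.elim_inl, Sum.elim_inr]
  have hC : ∀ a : ℂ, (aeval (Sum.elim (coordMat (blk₁ (gen (Fin 12))))
      (coordMat (blk₂ (gen (Fin 12))))) (C a : MvPolynomial (Fin 15 ⊕ Fin 15) ℂ) :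
        Forms (Fin 12)) = C a := fun a => by
    rw [aeval_C]; rfl
  simp only [hC]
  rw [pair_eq (fun i => (C (c (Sum.inl i)) : Forms (Fin 12))),
    pair_eq (fun i => (C (c (Sum.inr i)) : Forms (Fin 12)))]
  simp only [quatMat_C]
  unfold lin
  rw [Fintype.sum_prod_type]
  have hs : ∀ f : Fin 12 → Forms (Fin 12), ∑ i, f i =
      ∑ i : Fin 6, f (Fin.castAdd 6 i) + ∑ i : Fin 6, f (Fin.natAdd 6 i) := fun f =>
    Fin.sum_univ_add (a := 6) (b := 6) f
  simp only [hs]
  have b11 : ∀ i j : Fin 6, bmat c (Fin.castAdd 6 i) (Fin.castAdd 6 j) =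
      quatMat (fun i => c (Sum.inl i)) i j := by
    intro i j
    simp only [bmat, Matrix.reindex_apply, Matrix.submatrix_apply]
    rw [finSumFinEquiv_symm_apply_castAdd, finSumFinEquiv_symm_apply_castAdd]
    rfl
  have b12 : ∀ i j : Fin 6, bmat c (Fin.castAdd 6 i) (Fin.natAdd 6 j) = 0 := by
    intro i j
    simp only [bmat, Matrix.reindex_apply, Matrix.submatrix_apply]
    rw [finSumFinEquiv_symm_apply_castAdd, finSumFinEquiv_symm_apply_natAdd]
    rfl
  have b21 : ∀ i j : Fin 6, bmat c (Fin.natAdd 6 i) (Fin.castAdd 6 j) = 0 := by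
    intro i j
    simp only [bmat, Matrix.reindex_apply, Matrix.submatrix_apply]
    rw [finSumFinEquiv_symm_apply_castAdd, finSumFinEquiv_symm_apply_natAdd]
    rfl
  have b22 : ∀ i j : Fin 6, bmat c (Fin.natAdd 6 i) (Fin.natAdd 6 j) =
      quatMat (fun i => c (Sum.inr i)) i j := by
    intro i j
    simp only [bmat, Matrix.reindex_apply, Matrix.submatrix_apply]
    rw [finSumFinEquiv_symm_apply_natAdd, finSumFinEquiv_symm_apply_natAdd]
    rfl
  simp only [b11, b12, b21, b22, map_zero, zero_mul, Finset.sum_const_zero, add_zero, zero_add]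
  rfl

/-- Packet G-A3. -/
theorem funct (h : StmtDet) : StmtFun := by
  intro f hf
  let A : MvPolynomial (Fin 15 ⊕ Fin 15) ℂ →ₐ[ℂ] Forms (Fin 12) := aeval (Sum.elim
    (coordMat (blk₁ (gen (Fin 12)))) (coordMat (blk₂ (gen (Fin 12)))))
  have key := ext_pow ((vol (κ := Fin 12)).comp A.toLinearMap) rhsL 12 (fun c => ?_) hf
  · exact key
  · change vol (κ := Fin 12) (A (ell c ^ 12)) = rhsL (ell c ^ 12)
    rw [map_pow, show A (ell c) = lin (bmat c) from aeval_ell c, rhsL_pow]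
    have h12 := vol_lin_pow (bmat c)
    rw [Fintype.card_fin] at h12
    rw [h12]
    congr 1
    unfold bmat
    rw [Matrix.det_reindex_self, Matrix.det_fromBlocks_zero₂₁, h, h]

end Pool.Agent.Helper65.Griff
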